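import Pool.Agent.K4H72.Til.Spec
import Pool.Agent.K4H72.Til.Asm2
import Pool.Agent.K4H72.Til.Ev
import Pool.Agent.K4H72.Til.LF

/-!
# MP_885f6d_mp : tilings without locally-supported eigenfunctions in an MLD class

Every tiling `T` of the plane by (coloured) polygons is mutually locally derivable with a tiling `T'`
by (coloured) polygons whose Laplacian has no locally-supported eigenfunction; each tile of `T'` has
finitely many neighbours.  If `T` has finite local complexity, then `T'` is moreover locally finite, its
graph is the triangular lattice, and two tiles of `T'` which meet share an edge.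

Definitions (`Pool/Agent/K4H72/Til/Spec.lean`; the plane is `ℂ`): `Tile`, `shift`, `patch`
(`patch T (-x) K` is `(-x + T) ⊓ K`), `IsPolygon`, `IsTiling`, `Derivable`, `MLD`, `FLC`, `ShareEdge`,
`Adj`, `HasLocEig`.

Proof for finite local complexity.  Let `P` be the set of reference points of the tiles.  Differences of
points of `P` generate a finitely generated group; by simultaneous Dirichlet approximation there are `M`
and a homomorphism `φ` to the Eisenstein integers with `|M d - φ d|` tiny for all short differences `d`.
So `P` is deformed to a subset of the lattice of mesh `1 / M`, with an error which is locally small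
compared with the mesh, and the lattice can be pulled back: a set of points `g v`, locally derivable from
`T`, with `|g v - g w - (v - w) / M| ≤ (1/20) |v - w| / M`.  `T'` consists of the Voronoi cells of these
points (hexagons), coloured with the patches of `T`.

Proof for the other tilings: every tile of `T` is divided by a chord, each half is divided into rings
which shrink to an interior point of the chord, and the rings into sectors; neighbours are tiles with a
common whole edge, as in the file.  This `T'` is a countable family, as in the file, but it is not locally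
finite.
-/

set_option autoImplicit false

open Set

namespace Pool.Agent.Results.MP_885f6d_mp.EveryPolygonalTiling

open Pool.Agent.K4H72.Til

theorem result (C : Type) (T : Set (Tile C)) (hT : IsTiling T) :
    ∃ (C' : Type) (T' : Set (Tile C')), IsTiling T' ∧ MLD T T' ∧
      (∀ v : T', {u : T' | Adj u v}.Finite) ∧
      ¬ HasLocEig T' ∧
      (FLC T →
        (∀ R : ℝ, {t | t ∈ T' ∧ (t.1 ∩ Metric.ball (0 : ℂ) R).Nonempty}.Finite) ∧
        (∃ e : ℤ × ℤ ≃ T', ∀ u v, Adj (e u) (e v) ↔
          u - v ∈ ({(1, 0), (-1, 0), (0, 1), (0, -1), (1, -1), (-1, 1)} : Set (ℤ × ℤ))) ∧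
        (∀ s ∈ T', ∀ t ∈ T', s ≠ t → (s.1 ∩ t.1).Nonempty → ShareEdge s.1 t.1)) := by
  by_cases hF : FLC T
  swap
  · obtain ⟨C', T', h1, h2, h3, h4⟩ := Pool.Agent.K4H59.TL.every T hT
    exact ⟨C', T', h1, h2, h3, h4, fun h => absurd h hF⟩
  obtain ⟨P, D, hD, hdense, hfin, hP⟩ := points T hT hF
  obtain ⟨h, g, hg, hloc⟩ := deform P D hD hdense hfin
  have hh := hg.1
  obtain ⟨R, hR⟩ := hloc (3 * h)
  obtain ⟨R', hR', hPR⟩ := hP R
  have hTil := tiling' T h g hg h
  refine ⟨Set (Tile C) × Set ℂ, Set.range (tl T g h), hTil,
    ⟨der1 T h g hg h hh ⟨R', fun x y hxy => ?_⟩, der2 T h g hg h le_rfl⟩,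
    fun v => Pool.Agent.K4H59.TL.nbr_finite hTil v, noEig T h g hg h, fun _ =>
    ⟨fun R => locfin T h g hg h R, ⟨idx T h g hg h, fun u v => ?_⟩, ?_⟩⟩
  · obtain ⟨τ, hτ⟩ := hR x y (hPR x y hxy)
    exact ⟨τ, fun v hv => hτ v hv⟩
  · rw [adj_iff T h g hg h u v]
    simp only [six, Finset.mem_insert, Finset.mem_singleton, Set.mem_insert_iff, Set.mem_singleton_iff]
  · rintro s ⟨v, rfl⟩ t ⟨w, rfl⟩ hst hne
    have hvw : v ≠ w := fun h => hst (by rw [h])
    have h1 := touch h g hg v w hvw hne
    have h2 := edge h g hg v (w - v) h1
    rw [add_sub_cancel] at h2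
    exact h2

end Pool.Agent.Results.MP_885f6d_mp.EveryPolygonalTiling
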